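import Pool.Agent.Helper64.PQ.Goals

set_option autoImplicit false

/-!
Project PQ, packet A4: at most three elements see three different directions.
-/

open Pool.Agent.Helper64.PQ

namespace Pool.Agent.Helper87.PQ

section
variable {X : Type} {t : ℕ} {d : X → X → X → ℕ} {E : X → X → X → Prop} {D : X → X → X → ℕ}

lemma half (h : Exact t d E D) {x x' p q r : X} (hx' : x ≠ x') (hp : p ≠ x) (hq : q ≠ x) (hr : r ≠ x)
    (hp' : p ≠ x') (hq' : q ≠ x') (hr' : r ≠ x') (e1 : ¬ E x q r) (e2 : ¬ E x' p r)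
    (h2 : 16 * t < D x' p q) (h3 : 8 * t < D x p x') :
    D x q r ≤ 8 * t ∧ D x' p r ≤ 8 * t := by
  have a1 : E x' x p := by
    apply h.strong x x' p hx' (fun e => hp' e.symm) hp.symm
    rw [h.dsymm x x' p hx'.symm hp]
    exact h3
  have a2 : D x' x q = D x' p q := h.dcongr x' x p q hx' hp' hq' a1
  have a3 : E x x' q := by
    apply h.strong x' x q hx'.symm hq.symm hq'.symm
    rw [a2]
    omega
  constructor
  · by_contra hc
    have a4 : D x x' r = D x q r := h.dcongr x x' q r hx'.symm hq hr a3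
    have a5 : E x' x r := by
      apply h.strong x x' r hx' hr'.symm hr.symm
      omega
    exact e2 (h.etrans x' p x r (h.esymm _ _ _ a1) a5)
  · by_contra hc
    have a4 : D x' x r = D x' p r := h.dcongr x' x p r hx' hp' hr' a1
    have a5 : E x x' r := by
      apply h.strong x' x r hx'.symm hr.symm hr'.symm
      omega
    exact e1 (h.etrans x q x' r (h.esymm _ _ _ a3) a5)

lemma key (h : Exact t d E D) {x x' p q r : X} (hx' : x ≠ x') (hp : p ≠ x) (hq : q ≠ x) (hr : r ≠ x)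
    (hp' : p ≠ x') (hq' : q ≠ x') (hr' : r ≠ x') (e1 : ¬ E x q r) (e1' : ¬ E x p r)
    (e2 : ¬ E x' p r) (e2' : ¬ E x' q r)
    (h1 : 16 * t < D x p q) (h2 : 16 * t < D x' p q) :
    (D x q r ≤ 8 * t ∧ D x' p r ≤ 8 * t) ∨ (D x p r ≤ 8 * t ∧ D x' q r ≤ 8 * t) := by
  have a1 : D x p q ≤ D x p x' + D x x' q := h.dtri x p x' q hp hx'.symm hq
  by_cases a2 : 8 * t < D x p x'
  · exact Or.inl (half h hx' hp hq hr hp' hq' hr' e1 e2 h2 a2)
  · refine Or.inr (half h hx' hq hp hr hq' hp' hr' e1' e2' ?_ ?_)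
    · rw [h.dsymm x' q p hq' hp']
      exact h2
    · rw [h.dsymm x q x' hq hx'.symm]
      omega

end

theorem goalA4 : GoalA4 := by
  intro X t d E D hP h y z w
  classical
  set Z : Set X := {x | x ≠ y ∧ x ≠ z ∧ x ≠ w ∧ ¬ E x y z ∧ ¬ E x z w ∧ ¬ E x y w ∧
    (32 * t < D x y z ∨ 32 * t < D x z w ∨ 32 * t < D x y w)} with hZ
  let s : X → Fin 3 := fun x => if D x y z ≤ 8 * t then 0 else if D x z w ≤ 8 * t then 1 else 2
  have ht := hP.pos
  have hinj : Set.InjOn s Z := by
    intro x hx x' hx' hs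
    by_contra hne
    obtain ⟨x1, x2, x3, x4, x5, x6, x7⟩ := hx
    obtain ⟨y1, y2, y3, y4, y5, y6, y7⟩ := hx'
    have t1 := h.dtri x y z w x1.symm x2.symm x3.symm
    have t2 := h.dtri x y w z x1.symm x3.symm x2.symm
    have t3 := h.dtri x z y w x2.symm x1.symm x3.symm
    have u1 := h.dtri x' y z w y1.symm y2.symm y3.symm
    have u2 := h.dtri x' y w z y1.symm y3.symm y2.symm
    have u3 := h.dtri x' z y w y2.symm y1.symm y3.symm
    have c1 := h.dsymm x w z x3.symm x2.symm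
    have c2 := h.dsymm x z y x2.symm x1.symm
    have c3 := h.dsymm x w y x3.symm x1.symm
    have d1 := h.dsymm x' w z y3.symm y2.symm
    have d2 := h.dsymm x' z y y2.symm y1.symm
    have d3 := h.dsymm x' w y y3.symm y1.symm
    have k1 := fun p q => key h (x := x) (x' := x') (p := y) (q := z) (r := w) hne x1.symm x2.symm
      x3.symm y1.symm y2.symm y3.symm x5 x6 y6 y5 p q
    have k2 := fun p q => key h (x := x) (x' := x') (p := z) (q := w) (r := y) hne x2.symm x3.symm
      x1.symm y2.symm y3.symm y1.symm (fun e => x6 (h.esymm _ _ _ e)) (fun e => x4 (h.esymm _ _ _ e))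
      (fun e => y4 (h.esymm _ _ _ e)) (fun e => y6 (h.esymm _ _ _ e)) p q
    have k3 := fun p q => key h (x := x) (x' := x') (p := y) (q := w) (r := z) hne x1.symm x3.symm
      x2.symm y1.symm y3.symm y2.symm (fun e => x5 (h.esymm _ _ _ e)) x4 y4
      (fun e => y5 (h.esymm _ _ _ e)) p q
    simp only [s] at hs
    have hs' : (D x y z ≤ 8 * t ∧ D x' y z ≤ 8 * t) ∨
        (¬ D x y z ≤ 8 * t ∧ ¬ D x' y z ≤ 8 * t ∧ D x z w ≤ 8 * t ∧ D x' z w ≤ 8 * t) ∨
        (¬ D x y z ≤ 8 * t ∧ ¬ D x' y z ≤ 8 * t ∧ ¬ D x z w ≤ 8 * t ∧ ¬ D x' z w ≤ 8 * t) := by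
      by_cases g1 : D x y z ≤ 8 * t <;> by_cases g2 : D x' y z ≤ 8 * t <;>
        by_cases g3 : D x z w ≤ 8 * t <;> by_cases g4 : D x' z w ≤ 8 * t <;>
        simp [g1, g2, g3, g4] at hs ⊢
    by_cases g1 : 16 * t < D x y z ∧ 16 * t < D x' y z
    · have := k1 g1.1 g1.2
      omega
    · by_cases g2 : 16 * t < D x z w ∧ 16 * t < D x' z w
      · have := k2 g2.1 g2.2
        omega
      · by_cases g3 : 16 * t < D x y w ∧ 16 * t < D x' y w
        · have := k3 g3.1 g3.2
          omega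
        · omega
  have hfin : Z.Finite := Set.Finite.of_finite_image (Set.toFinite _) hinj
  refine ⟨hfin.toFinset, ?_, ?_⟩
  · have : hfin.toFinset.card ≤ (Finset.univ : Finset (Fin 3)).card := by
      apply Finset.card_le_card_of_injOn s (fun _ _ => Finset.mem_univ _)
      rw [hfin.coe_toFinset]
      exact hinj
    simpa using this
  · intro x hx x1 x2 x3 x4
    by_contra hc
    push Not at hc
    apply hx
    rw [hfin.mem_toFinset]
    exact ⟨x1, x2, x3, hc.1, hc.2.1, hc.2.2, x4⟩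

end Pool.Agent.Helper87.PQ
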